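import Mathlib
import Pool.Agent.Y13.NL.Fin

/-!
# MP_28854f_mp: the `N^{5/3}` law for every number of static particles, with the limit constant

`E3 = ℝ³`; `coul z x R` is the Coulomb energy of `N` particles of charge `-1` at `x` and `K` static
particles of charge `z` at `R`; `energiesH1 z K N` is the set of all `⟨ψ, H_{N,R} ψ⟩` with
`ψ ∈ H¹(ℝ^{3N})` normalised (no symmetry) and `R` any `K` pairwise different positions,
`E0H1 z K N` its infimum; `energiesB`, `E0B` are the same with permutation symmetric `ψ`. There is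
no neutrality condition: `K` and `N` are arbitrary. `Efree z N` is the infimum over `K` as well.

`cstar` is the constant of the classical jellium (the largest energy gain per unit volume of
random point configurations of intensity one in a cube over the uniform charge distribution) and
`Gam` the best constant in `(∫ |u|^{8/3})² ≤ Γ ∫ |∇u|²`, `∫ |u|² = 1`, `u ∈ C_c^∞(ℝ³)`.
-/

namespace Pool.Agent.Results.MP_28854f_mp.LawForAllCharges

open MeasureTheory Pool.Agent.H5R2.NL Pool.Agent.Y13.NL Filter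
open scoped Topology

theorem div_bounds {E Y a b : ℝ} (hY : 0 < Y) (h1 : a * Y ≤ E) (h2 : E ≤ b * Y) :
    a ≤ E / Y ∧ E / Y ≤ b := by
  constructor
  · rw [le_div_iff₀ hY]; exact h1
  · rw [div_le_iff₀ hY]; exact h2

/-- Both ground state energies lie between the two bounds. -/
theorem sandwich (z : ℝ) (hz : 0 < z) (ε : ℝ) (hε : 0 < ε) : ∃ N₀ : ℕ, ∀ N : ℕ, N₀ ≤ N →
    1 ≤ N ∧ ∀ K : ℕ, (energiesB z K N).Nonempty ∧ (energiesH1 z K N).Nonempty ∧
      BddBelow (energiesH1 z K N) ∧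
      -(lawC z + ε) * (N : ℝ) ^ (5 / 3 : ℝ) ≤ E0H1 z K N ∧ E0H1 z K N ≤ E0B z K N ∧
      E0B z K N ≤ -lawC z * (min (N : ℝ) (K * z)) ^ (5 / 3 : ℝ) + ε * (N : ℝ) ^ (5 / 3 : ℝ) ∧
      ∀ e ∈ energiesH1 z K N, -(lawC z + ε) * (N : ℝ) ^ (5 / 3 : ℝ) ≤ e := by
  obtain ⟨N₀, h⟩ := both z hz ε hε
  refine ⟨N₀, fun N hN => ⟨(h N hN).1, fun K => ?_⟩⟩
  obtain ⟨hlow, e, he, hup⟩ := (h N hN).2 K
  have hbd : BddBelow (energiesH1 z K N) := ⟨_, hlow⟩
  have hneB : (energiesB z K N).Nonempty := ⟨e, he⟩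
  have hne : (energiesH1 z K N).Nonempty := ⟨e, energiesB_sub z K N he⟩
  exact ⟨hneB, hne, hbd, le_csInf hne hlow, csInf_le_csInf hbd hneB (energiesB_sub z K N),
    (csInf_le (hbd.mono (energiesB_sub z K N)) he).trans hup, hlow⟩

/-- **The `N^{5/3}` law for every number of static particles.** Let `z > 0` and
`ℓ(z) = z^{4/3} c_*² Γ / 4`, where `c_* ≥ 1/(2√3)` and `Γ > 0`.

1. (In particular the neutral case.) If `N_n → ∞` and `min(1, K_n z / N_n) → 1`, then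
   `E₀(N_n, K_n) / N_n^{5/3} → -ℓ(z)`, and the same holds for the bosonic ground state energy. In
   particular for `N_n = K_n z`, and whenever `K_n z ≥ N_n`.
2. For every `ε > 0`, all large `N` and all `K`:
   `-(ℓ(z) + ε) N^{5/3} ≤ E₀(N, K) ≤ E₀^B(N, K) ≤ -ℓ(z) min(N, K z)^{5/3} + ε N^{5/3}`.
3. If the number of static particles is free as well, the limit along all integers `N` exists and
   is again `-ℓ(z)`. -/
theorem result (z : ℝ) (hz : 0 < z) :
    (1 / (2 * Real.sqrt 3) ≤ cstar ∧ 0 < Gam) ∧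
    (∀ (N K : ℕ) (R : Fin K → E3) (ψ : (Fin N → E3) → ℂ)
      (g : Fin N → Fin 3 → (Fin N → E3) → ℂ), IsH1 ψ g →
        Integrable (fun x => coul z x R * ‖ψ x‖ ^ 2)) ∧
    (∀ K N : ℕ → ℕ, Tendsto N atTop atTop →
      Tendsto (fun n => min 1 ((K n : ℝ) * z / N n)) atTop (𝓝 1) →
        Tendsto (fun n => E0H1 z (K n) (N n) / (N n : ℝ) ^ (5 / 3 : ℝ)) atTop
          (𝓝 (-(z ^ (4 / 3 : ℝ) * cstar ^ 2 * Gam / 4))) ∧
        Tendsto (fun n => E0B z (K n) (N n) / (N n : ℝ) ^ (5 / 3 : ℝ)) atTop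
          (𝓝 (-(z ^ (4 / 3 : ℝ) * cstar ^ 2 * Gam / 4)))) ∧
    (∀ ε : ℝ, 0 < ε → ∃ N₀ : ℕ, ∀ N : ℕ, N₀ ≤ N → ∀ K : ℕ,
      (energiesB z K N).Nonempty ∧ (energiesH1 z K N).Nonempty ∧ BddBelow (energiesH1 z K N) ∧
      -(z ^ (4 / 3 : ℝ) * cstar ^ 2 * Gam / 4 + ε) * (N : ℝ) ^ (5 / 3 : ℝ) ≤ E0H1 z K N ∧
      E0H1 z K N ≤ E0B z K N ∧
      E0B z K N ≤ -(z ^ (4 / 3 : ℝ) * cstar ^ 2 * Gam / 4) *
        (min (N : ℝ) (K * z)) ^ (5 / 3 : ℝ) + ε * (N : ℝ) ^ (5 / 3 : ℝ)) ∧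
    Tendsto (fun N : ℕ => Efree z N / (N : ℝ) ^ (5 / 3 : ℝ)) atTop
      (𝓝 (-(z ^ (4 / 3 : ℝ) * cstar ^ 2 * Gam / 4))) := by
  have hL0 : 0 ≤ lawC z := by
    unfold lawC
    have := gam_pos.le
    positivity
  refine ⟨⟨cstar_ge, gam_pos⟩, fun _ _ R ψ g h => h1_integrable z R ψ g h, ?_, ?_, ?_⟩
  · -- sequences
    intro K N hN hr
    change Tendsto _ atTop (𝓝 (-lawC z)) ∧ Tendsto _ atTop (𝓝 (-lawC z))
    have hr' : Tendsto (fun n => lawC z * (1 - (min 1 ((K n : ℝ) * z / N n)) ^ (5 / 3 : ℝ))) atTop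
        (𝓝 0) := by
      have h1 : Tendsto (fun n => (min 1 ((K n : ℝ) * z / N n)) ^ (5 / 3 : ℝ)) atTop
          (𝓝 ((1 : ℝ) ^ (5 / 3 : ℝ))) := hr.rpow_const (Or.inl one_ne_zero)
      rw [Real.one_rpow] at h1
      have h2 := (tendsto_const_nhds (x := (1 : ℝ)) (f := (atTop : Filter ℕ))).sub h1
      have h3 := h2.const_mul (lawC z)
      rwa [sub_self, mul_zero] at h3
    have key : ∀ ε : ℝ, 0 < ε → ∀ᶠ n in atTop,
        |E0H1 z (K n) (N n) / (N n : ℝ) ^ (5 / 3 : ℝ) - -lawC z| < ε ∧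
        |E0B z (K n) (N n) / (N n : ℝ) ^ (5 / 3 : ℝ) - -lawC z| < ε := by
      intro ε hε
      obtain ⟨N₀, h⟩ := sandwich z hz (ε / 4) (by positivity)
      filter_upwards [hN.eventually_ge_atTop N₀, hr'.eventually_lt_const
        (show (0 : ℝ) < ε / 4 by positivity)] with n hn hn2
      obtain ⟨hN1, h⟩ := h (N n) hn
      obtain ⟨-, -, -, a1, a2, a3, -⟩ := h (K n)
      have hNpos : (0 : ℝ) < N n := by exact_mod_cast hN1
      have hY : (0 : ℝ) < (N n : ℝ) ^ (5 / 3 : ℝ) := Real.rpow_pos_of_pos hNpos _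
      have e1 : (min 1 ((K n : ℝ) * z / N n)) ^ (5 / 3 : ℝ) =
          (min (N n : ℝ) (K n * z)) ^ (5 / 3 : ℝ) / (N n : ℝ) ^ (5 / 3 : ℝ) := by
        rw [← Real.div_rpow (by positivity) hNpos.le, ← min_div_div_right hNpos.le,
          div_self hNpos.ne']
      set ρ := (min 1 ((K n : ℝ) * z / N n)) ^ (5 / 3 : ℝ) with hρ
      have e2 : (min (N n : ℝ) (K n * z)) ^ (5 / 3 : ℝ) = ρ * (N n : ℝ) ^ (5 / 3 : ℝ) := by
        rw [e1]; field_simp
      rw [e2] at a3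
      have a3' : E0B z (K n) (N n) ≤ (-lawC z * ρ + ε / 4) * (N n : ℝ) ^ (5 / 3 : ℝ) := by
        refine a3.trans (le_of_eq ?_)
        ring
      obtain ⟨b1, b2⟩ := div_bounds hY a1 (a2.trans a3')
      obtain ⟨c1, c2⟩ := div_bounds hY (a1.trans a2) a3'
      have hρ2 : lawC z * (1 - ρ) < ε / 4 := hn2
      have e3 : -lawC z * ρ = -lawC z + lawC z * (1 - ρ) := by ring
      rw [e3] at b2 c2
      constructor
      · rw [abs_lt]
        constructor <;> linarith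
      · rw [abs_lt]
        constructor <;> linarith
    constructor
    · rw [Metric.tendsto_atTop']
      intro ε hε
      obtain ⟨n₀, h⟩ := eventually_atTop.1 (key ε hε)
      exact ⟨n₀, fun n hn => by rw [Real.dist_eq]; exact (h n hn.le).1⟩
    · rw [Metric.tendsto_atTop']
      intro ε hε
      obtain ⟨n₀, h⟩ := eventually_atTop.1 (key ε hε)
      exact ⟨n₀, fun n hn => by rw [Real.dist_eq]; exact (h n hn.le).2⟩
  · intro ε hε
    obtain ⟨N₀, h⟩ := sandwich z hz ε hε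
    refine ⟨N₀, fun N hN K => ?_⟩
    obtain ⟨h1, h2, h3, h4, h5, h6, -⟩ := (h N hN).2 K
    exact ⟨h1, h2, h3, h4, h5, h6⟩
  · -- the number of static particles is free
    change Tendsto _ atTop (𝓝 (-lawC z))
    rw [Metric.tendsto_atTop']
    intro ε hε
    obtain ⟨N₀, h⟩ := sandwich z hz (ε / 2) (by positivity)
    refine ⟨N₀, fun N hN => ?_⟩
    obtain ⟨hN1, h⟩ := h N hN.le
    have hNpos : (0 : ℝ) < N := by exact_mod_cast hN1
    have hY : (0 : ℝ) < (N : ℝ) ^ (5 / 3 : ℝ) := Real.rpow_pos_of_pos hNpos _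
    have hlow : ∀ e ∈ ⋃ K, energiesH1 z K N, -(lawC z + ε / 2) * (N : ℝ) ^ (5 / 3 : ℝ) ≤ e := by
      intro e he
      obtain ⟨K, hK⟩ := Set.mem_iUnion.1 he
      exact (h K).2.2.2.2.2.2 e hK
    obtain ⟨K, hK⟩ : ∃ K : ℕ, (N : ℝ) / z ≤ K := exists_nat_ge _
    have hK' : (N : ℝ) ≤ K * z := by rwa [div_le_iff₀ hz] at hK
    obtain ⟨-, h2, h3, h4, h5, h6, -⟩ := h K
    rw [min_eq_left hK'] at h6
    have hne : (⋃ K, energiesH1 z K N).Nonempty := h2.mono (Set.subset_iUnion _ K)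
    have e1 : -(lawC z + ε / 2) * (N : ℝ) ^ (5 / 3 : ℝ) ≤ Efree z N := le_csInf hne hlow
    have e2 : Efree z N ≤ E0H1 z K N :=
      csInf_le_csInf ⟨_, hlow⟩ h2 (Set.subset_iUnion (fun K => energiesH1 z K N) K)
    have e3 : Efree z N ≤ (-lawC z + ε / 2) * (N : ℝ) ^ (5 / 3 : ℝ) := by
      refine (e2.trans (h5.trans h6)).trans (le_of_eq ?_)
      ring
    obtain ⟨b1, b2⟩ := div_bounds hY e1 e3
    rw [Real.dist_eq, abs_lt]
    constructor <;> linarith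

end Pool.Agent.Results.MP_28854f_mp.LawForAllCharges
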